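import Pool.Agent.Helper73.F2.St

/-!
# Project F2, module RD2 (second reduction)
-/

namespace Pool.Agent.Helper47.F2

open _root_.F2 Finset

theorem block4 {V κ : Type} [Fintype V] [DecidableEq V] [DecidableEq κ] {b : V → κ} (hb : Four b)
    {v c : V} (hvc : v ≠ c) (hbl : b v = b c) :
    ∃ p d, p ≠ v ∧ p ≠ c ∧ d ≠ v ∧ d ≠ c ∧ p ≠ d ∧ b p = b v ∧ b d = b v ∧
      ∀ x, b x = b v → x = v ∨ x = c ∨ x = p ∨ x = d := by
  have h1 := hb (b v)
  set S := univ.filter (fun x => b x = b v) with hS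
  have hv : v ∈ S := by simp [hS]
  have hc : c ∈ S.erase v := by
    rw [mem_erase]
    exact ⟨hvc.symm, by simp [hS, hbl]⟩
  have h2 : ((S.erase v).erase c).card = 2 := by
    rw [card_erase_of_mem hc, card_erase_of_mem hv, h1]
  obtain ⟨p, d, hpd, h3⟩ := card_eq_two.1 h2
  have hp : p ∈ (S.erase v).erase c := by rw [h3]; simp
  have hd : d ∈ (S.erase v).erase c := by rw [h3]; simp
  rw [mem_erase, mem_erase] at hp hd
  have hpS : b p = b v := by
    have := hp.2.2
    rw [hS, mem_filter] at this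
    exact this.2
  have hdS : b d = b v := by
    have := hd.2.2
    rw [hS, mem_filter] at this
    exact this.2
  refine ⟨p, d, hp.2.1, hp.1, hd.2.1, hd.1, hpd, hpS, hdS, ?_⟩
  intro x hx
  by_cases e1 : x = v
  · exact Or.inl e1
  by_cases e2 : x = c
  · exact Or.inr (Or.inl e2)
  have : x ∈ (S.erase v).erase c := by
    rw [mem_erase, mem_erase]
    exact ⟨e2, e1, by simp [hS, hx]⟩
  rw [h3, mem_insert, mem_singleton] at this
  exact Or.inr (Or.inr this)

theorem col1 : ∀ β a₁ a₂ : Fin 4, ∃ e : Fin 4, e ≠ β ∧ e ≠ a₁ ∧ e ≠ a₂ := by decide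

theorem col2 : ∀ β e a₃ a₄ : Fin 4, e ≠ β → a₃ ≠ a₄ →
    ∃ γ δ : Fin 4, γ ≠ β ∧ δ ≠ β ∧ γ ≠ e ∧ δ ≠ e ∧ γ ≠ δ ∧ γ ≠ a₃ ∧ δ ≠ a₄ := by decide

theorem fin4_ne : ∀ a : Fin 4, ∃ b : Fin 4, b ≠ a := by decide

theorem hRD2 : StRD2 := by
  intro V κ _ _ _ _ G b t v c hdeg hb hin htv htc huniq hvc hbl hRest
  classical
  obtain ⟨p, d, hpv, hpc, hdv, hdc, hpd, hbp, hbd, hblk⟩ := block4 hb hvc hbl
  have hbt : b t ≠ b v := hin t v htv
  -- the neighbours of `t`
  have htn : ∀ w, G.Adj t w → w = v ∨ w = c := by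
    intro w hw
    rcases hdeg t v c w htv htc hw with h | h | h
    · exact absurd h hvc
    · exact Or.inl h.symm
    · exact Or.inr h.symm
  have hcu : ∀ w w', w ≠ t → w' ≠ t → G.Adj c w → G.Adj c w' → w = w' := by
    intro w w' h1 h2 h3 h4
    rcases hdeg c t w w' htc.symm h3 h4 with h | h | h
    · exact absurd h.symm h1
    · exact absurd h.symm h2
    · exact h
  have hvu : ∀ w w', w ≠ t → w' ≠ t → G.Adj v w → G.Adj v w' → w = w' := by
    intro w w' h1 h2 h3 h4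
    rcases hdeg v t w w' htv.symm h3 h4 with h | h | h
    · exact absurd h.symm h1
    · exact absurd h.symm h2
    · exact h
  let G' : SimpleGraph V :=
    { Adj := fun u w => u ≠ w ∧ (G.Adj u w ∨ (u = t ∧ G.Adj p w) ∨ (w = t ∧ G.Adj p u) ∨
        (u ≠ t ∧ w ≠ t ∧ ((G.Adj v u ∧ G.Adj c w) ∨ (G.Adj v w ∧ G.Adj c u))))
      symm := ⟨by
        rintro u w ⟨h1, h2⟩
        refine ⟨h1.symm, ?_⟩
        rcases h2 with h | h | h | ⟨h3, h4, h | h⟩
        · exact Or.inl h.symm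
        · exact Or.inr (Or.inr (Or.inl h))
        · exact Or.inr (Or.inl h)
        · exact Or.inr (Or.inr (Or.inr ⟨h4, h3, Or.inr h⟩))
        · exact Or.inr (Or.inr (Or.inr ⟨h4, h3, Or.inl h⟩))⟩
      loopless := ⟨fun u h => h.1 rfl⟩ }
  have hG' : ∀ u w, G'.Adj u w ↔ (u ≠ w ∧ (G.Adj u w ∨ (u = t ∧ G.Adj p w) ∨ (w = t ∧ G.Adj p u) ∨
        (u ≠ t ∧ w ≠ t ∧ ((G.Adj v u ∧ G.Adj c w) ∨ (G.Adj v w ∧ G.Adj c u))))) :=
    fun u w => Iff.rfl
  -- degrees
  have hD : ∀ x p' q' r', b x ≠ b v → b p' ≠ b v → b q' ≠ b v → b r' ≠ b v → G'.Adj x p' →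
      G'.Adj x q' → G'.Adj x r' → p' = q' ∨ p' = r' ∨ q' = r' := by
    intro x w₁ w₂ w₃ hx h₁ h₂ h₃ a₁ a₂ a₃
    by_cases hxt : x = t
    · have key : ∀ w, b w ≠ b v → G'.Adj x w → G.Adj p w := by
        intro w hw ha
        rw [hG'] at ha
        obtain ⟨hne, h | h | h | h⟩ := ha
        · exfalso
          rw [hxt] at h
          rcases htn w h with h' | h'
          · exact hw (by rw [h'])
          · exact hw (by rw [h', hbl])
        · exact h.2
        · exact absurd (hxt.trans h.1.symm) hne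
        · exact absurd hxt h.1
      exact hdeg p w₁ w₂ w₃ (key w₁ h₁ a₁) (key w₂ h₂ a₂) (key w₃ h₃ a₃)
    · have key : ∀ w, b w ≠ b v → G'.Adj x w → ∃ n, G.Adj x n ∧ ((n = w ∧ b n ≠ b v) ∨
          (n = p ∧ w = t) ∨ (n = v ∧ w ≠ t ∧ G.Adj c w) ∨ (n = c ∧ w ≠ t ∧ G.Adj v w)) := by
        intro w hw ha
        rw [hG'] at ha
        obtain ⟨hne, h | h | h | ⟨h1, h2, h | h⟩⟩ := ha
        · exact ⟨w, h, Or.inl ⟨rfl, hw⟩⟩
        · exact absurd h.1 hxt
        · exact ⟨p, h.2.symm, Or.inr (Or.inl ⟨rfl, h.1⟩)⟩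
        · exact ⟨v, h.1.symm, Or.inr (Or.inr (Or.inl ⟨rfl, h2, h.2⟩))⟩
        · exact ⟨c, h.2.symm, Or.inr (Or.inr (Or.inr ⟨rfl, h2, h.1⟩))⟩
      have uniq : ∀ w w' n, ((n = w ∧ b n ≠ b v) ∨
          (n = p ∧ w = t) ∨ (n = v ∧ w ≠ t ∧ G.Adj c w) ∨ (n = c ∧ w ≠ t ∧ G.Adj v w)) →
          ((n = w' ∧ b n ≠ b v) ∨
          (n = p ∧ w' = t) ∨ (n = v ∧ w' ≠ t ∧ G.Adj c w') ∨ (n = c ∧ w' ≠ t ∧ G.Adj v w')) →
          w = w' := by
        rintro w w' n (⟨e1, e2⟩ | ⟨e1, e2⟩ | ⟨e1, e2, e3⟩ | ⟨e1, e2, e3⟩)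
          (⟨f1, f2⟩ | ⟨f1, f2⟩ | ⟨f1, f2, f3⟩ | ⟨f1, f2, f3⟩)
        · exact e1.symm.trans f1
        · exact absurd (by rw [f1, hbp]) e2
        · exact absurd (by rw [f1]) e2
        · exact absurd (by rw [f1, hbl]) e2
        · exact absurd (by rw [e1, hbp]) f2
        · exact e2.trans f2.symm
        · exact absurd (e1.symm.trans f1) hpv
        · exact absurd (e1.symm.trans f1) hpc
        · exact absurd (by rw [e1]) f2
        · exact absurd (f1.symm.trans e1) hpv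
        · exact hcu w w' e2 f2 e3 f3
        · exact absurd (e1.symm.trans f1) hvc
        · exact absurd (by rw [e1, hbl]) f2
        · exact absurd (f1.symm.trans e1) hpc
        · exact absurd (f1.symm.trans e1) hvc
        · exact hvu w w' e2 f2 e3 f3
      obtain ⟨n₁, m₁, k₁⟩ := key w₁ h₁ a₁
      obtain ⟨n₂, m₂, k₂⟩ := key w₂ h₂ a₂
      obtain ⟨n₃, m₃, k₃⟩ := key w₃ h₃ a₃
      rcases hdeg x n₁ n₂ n₃ m₁ m₂ m₃ with h | h | h
      · exact Or.inl (uniq w₁ w₂ n₁ k₁ (h ▸ k₂))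
      · exact Or.inr (Or.inl (uniq w₁ w₃ n₁ k₁ (h ▸ k₃)))
      · exact Or.inr (Or.inr (uniq w₂ w₃ n₂ k₂ (h ▸ k₃)))
  obtain ⟨g, hgp, hgi⟩ := hRest G' hD
  -- neighbours of `p`
  have hpn : ∀ w, G.Adj p w → g w ≠ g t := by
    intro w hw
    have hwb : b w ≠ b v := by
      have := hin p w hw
      rw [hbp] at this
      exact this.symm
    have hwt : t ≠ w := by
      rintro rfl
      rcases htn p hw.symm with h | h
      · exact hpv h
      · exact hpc h
    exact (hgp t w hbt hwb ⟨hwt, Or.inr (Or.inl ⟨rfl, hw⟩)⟩).symm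
  -- colours of the neighbours of `d`
  have hdn : ∃ a₁ a₂ : Fin 4, ∀ w, G.Adj d w → g w = a₁ ∨ g w = a₂ := by
    by_cases h1 : ∃ w₁, G.Adj d w₁
    · obtain ⟨w₁, hw₁⟩ := h1
      by_cases h2 : ∃ w₂, G.Adj d w₂ ∧ w₂ ≠ w₁
      · obtain ⟨w₂, hw₂, hne⟩ := h2
        refine ⟨g w₁, g w₂, fun w hw => ?_⟩
        rcases hdeg d w₁ w₂ w hw₁ hw₂ hw with h | h | h
        · exact absurd h.symm hne
        · exact Or.inl (by rw [h])
        · exact Or.inr (by rw [h])
      · refine ⟨g w₁, g w₁, fun w hw => ?_⟩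
        by_contra hcon
        apply h2
        refine ⟨w, hw, ?_⟩
        rintro rfl
        exact hcon (Or.inl rfl)
    · exact ⟨0, 0, fun w hw => absurd ⟨w, hw⟩ h1⟩
  obtain ⟨a₁, a₂, ha12⟩ := hdn
  obtain ⟨e, he1, he2, he3⟩ := col1 (g t) a₁ a₂
  -- colours of the other neighbours of `v`, `c`
  have hvn : ∃ a₃ a₄ : Fin 4, a₃ ≠ a₄ ∧ (∀ w, G.Adj v w → w ≠ t → g w = a₃) ∧
      ∀ w, G.Adj c w → w ≠ t → g w = a₄ := by
    by_cases h1 : ∃ x, G.Adj v x ∧ x ≠ t
    · obtain ⟨x, hx, hxt⟩ := h1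
      by_cases h2 : ∃ y, G.Adj c y ∧ y ≠ t
      · obtain ⟨y, hy, hyt⟩ := h2
        refine ⟨g x, g y, ?_, fun w hw hwt => by rw [hvu w x hwt hxt hw hx],
          fun w hw hwt => by rw [hcu w y hwt hyt hw hy]⟩
        have hxy : x ≠ y := by
          rintro rfl
          exact hxt (huniq x hx.symm hy.symm)
        have hxb : b x ≠ b v := (hin v x hx).symm
        have hyb : b y ≠ b v := by
          rw [hbl]
          exact (hin c y hy).symm
        exact hgp x y hxb hyb ⟨hxy, Or.inr (Or.inr (Or.inr ⟨hxt, hyt, Or.inl ⟨hx, hy⟩⟩))⟩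
      · obtain ⟨a₄, ha⟩ := fin4_ne (g x)
        exact ⟨g x, a₄, ha.symm, fun w hw hwt => by rw [hvu w x hwt hxt hw hx],
          fun w hw hwt => absurd ⟨w, hw, hwt⟩ h2⟩
    · by_cases h2 : ∃ y, G.Adj c y ∧ y ≠ t
      · obtain ⟨y, hy, hyt⟩ := h2
        obtain ⟨a₃, ha⟩ := fin4_ne (g y)
        exact ⟨a₃, g y, ha, fun w hw hwt => absurd ⟨w, hw, hwt⟩ h1,
          fun w hw hwt => by rw [hcu w y hwt hyt hw hy]⟩
      · exact ⟨0, 1, by decide, fun w hw hwt => absurd ⟨w, hw, hwt⟩ h1,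
          fun w hw hwt => absurd ⟨w, hw, hwt⟩ h2⟩
  obtain ⟨a₃, a₄, ha34, hav, hac⟩ := hvn
  obtain ⟨γ, δ, hγβ, hδβ, hγe, hδe, hγδ, hγ3, hδ4⟩ := col2 (g t) e a₃ a₄ he1 ha34
  set g' : V → Fin 4 := fun x => if x = p then g t else if x = d then e else if x = v then γ
    else if x = c then δ else g x with hg'
  have vp : g' p = g t := by simp [hg']
  have vd : g' d = e := by simp [hg', hpd.symm]
  have vv : g' v = γ := by simp [hg', hpv.symm, hdv.symm]
  have vc : g' c = δ := by simp [hg', hpc.symm, hdc.symm, hvc.symm]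
  have vo : ∀ x, b x ≠ b v → g' x = g x := by
    intro x hx
    have h1 : x ≠ p := by rintro rfl; exact hx hbp
    have h2 : x ≠ d := by rintro rfl; exact hx hbd
    have h3 : x ≠ v := by rintro rfl; exact hx rfl
    have h4 : x ≠ c := by rintro rfl; exact hx hbl.symm
    simp [hg', h1, h2, h3, h4]
  have inB : ∀ u w, b u = b v → G.Adj u w → g' u ≠ g' w := by
    intro u w hu huw
    have hw : b w ≠ b v := by
      have := hin u w huw
      rw [hu] at this
      exact this.symm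
    rw [vo w hw]
    rcases hblk u hu with rfl | rfl | rfl | rfl
    · rw [vv]
      by_cases hwt : w = t
      · rw [hwt]; exact hγβ
      · rw [hav w huw hwt]; exact hγ3
    · rw [vc]
      by_cases hwt : w = t
      · rw [hwt]; exact hδβ
      · rw [hac w huw hwt]; exact hδ4
    · rw [vp]; exact (hpn w huw).symm
    · rw [vd]
      rcases ha12 w huw with h | h
      · rw [h]; exact he2
      · rw [h]; exact he3
  refine ⟨g', ?_, ?_⟩
  · intro u w huw
    by_cases hu : b u = b v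
    · exact inB u w hu huw
    · by_cases hw : b w = b v
      · exact (inB w u hw huw.symm).symm
      · rw [vo u hu, vo w hw]
        exact hgp u w hu hw ⟨huw.ne, Or.inl huw⟩
  · intro u w huw hcol
    by_cases hu : b u = b v
    · have hw : b w = b v := huw.symm.trans hu
      rcases hblk u hu with e1 | e1 | e1 | e1 <;> rcases hblk w hw with e2 | e2 | e2 | e2 <;>
        rw [e1, e2] at hcol ⊢ <;> first
          | rfl
          | (exfalso
             simp only [vp, vd, vv, vc] at hcol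
             first
               | exact hγδ hcol
               | exact hγδ hcol.symm
               | exact hγβ hcol
               | exact hγβ hcol.symm
               | exact hδβ hcol
               | exact hδβ hcol.symm
               | exact hγe hcol
               | exact hγe hcol.symm
               | exact hδe hcol
               | exact hδe hcol.symm
               | exact he1 hcol
               | exact he1 hcol.symm)
    · have hw : b w ≠ b v := by rw [← huw]; exact hu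
      rw [vo u hu, vo w hw] at hcol
      exact hgi u w hu huw hcol

end Pool.Agent.Helper47.F2
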